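import Pool.Agent.H7.CT.Fin

/-!
# Common edges of compatible plane spanning trees

`f n = max 1 ⌊(n - 2) / 5⌋` for all `n ≥ 2`; in particular `f n / n → 1 / 5`.
-/

open Classical

namespace Pool.Agent.Results.MP_1875a2_co.CommonEdges

/-- The Euclidean plane. -/
abbrev E2 : Type := EuclideanSpace ℝ (Fin 2)

/-- `n` different points of the plane, no three of them on a line. -/
def GeneralPosition {n : ℕ} (P : Fin n → E2) : Prop :=
  Function.Injective P ∧
    ∀ a b c, a ≠ b → a ≠ c → b ≠ c → ¬ Collinear ℝ {P a, P b, P c}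

/-- The geometric graph `G` on the points `P` (its edge `ab` is the segment from `P a` to `P b`)
is plane: two different edges meet at most in a common endpoint. -/
def IsPlane {n : ℕ} (P : Fin n → E2) (G : SimpleGraph (Fin n)) : Prop :=
  ∀ a b c d, G.Adj a b → G.Adj c d → s(a, b) ≠ s(c, d) →
    ∀ x, x ∈ segment ℝ (P a) (P b) → x ∈ segment ℝ (P c) (P d) →
      ∃ v, v ∈ s(a, b) ∧ v ∈ s(c, d) ∧ x = P v

/-- `c(S, T)`: the least number of edges that a (plane) spanning tree `T'` of the points,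
compatible with `T`, has in common with `T`. -/
noncomputable def commonEdges {n : ℕ} (P : Fin n → E2) (T : SimpleGraph (Fin n)) : ℕ :=
  sInf {k | ∃ T' : SimpleGraph (Fin n), T'.IsTree ∧ IsPlane P T' ∧ IsPlane P (T ⊔ T') ∧
    (T ⊓ T').edgeSet.ncard = k}

/-- `f(n)`: the maximum of `c(S, T)` over all `n`-point sets `S` in general position and all
plane spanning trees `T` of `S`. -/
noncomputable def f (n : ℕ) : ℕ :=
  sSup {k | ∃ (P : Fin n → E2) (T : SimpleGraph (Fin n)), GeneralPosition P ∧ T.IsTree ∧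
    IsPlane P T ∧ commonEdges P T = k}

theorem upper {n : ℕ} (P : Fin n → E2) (T : SimpleGraph (Fin n)) (hP : GeneralPosition P)
    (hT : T.IsTree) (hp : IsPlane P T) : commonEdges P T ≤ max 1 ((n - 2) / 5) := by
  obtain ⟨T', h1, h2, h3, h4⟩ := CT.fin_upper P hP T hT hp
  have h5 : commonEdges P T ≤ (T ⊓ T').edgeSet.ncard := Nat.sInf_le ⟨T', h1, h2, h3, rfl⟩
  refine h5.trans ?_
  omega

theorem exact_value (n : ℕ) (hn : 2 ≤ n) : f n = max 1 ((n - 2) / 5) := by
  apply le_antisymm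
  · apply csSup_le'
    rintro k ⟨P, T, hP, hT, hp, rfl⟩
    exact upper P T hP hT hp
  · obtain ⟨P, T, hP, hT, hp, h⟩ := CT.fin_lower hn
    have hb : BddAbove {k | ∃ (P : Fin n → E2) (T : SimpleGraph (Fin n)), GeneralPosition P ∧
        T.IsTree ∧ IsPlane P T ∧ commonEdges P T = k} := by
      refine ⟨max 1 ((n - 2) / 5), ?_⟩
      rintro k ⟨P, T, hP, hT, hp, rfl⟩
      exact upper P T hP hT hp
    refine le_trans ?_ (le_csSup hb ⟨P, T, hP, hT, hp, rfl⟩)
    have hne : {k | ∃ T' : SimpleGraph (Fin n), T'.IsTree ∧ IsPlane P T' ∧ IsPlane P (T ⊔ T') ∧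
        (T ⊓ T').edgeSet.ncard = k}.Nonempty :=
      ⟨_, T, hT, hp, by rw [sup_idem]; exact hp, rfl⟩
    obtain ⟨T', h1, h2, h3, h4⟩ := Nat.sInf_mem hne
    have h5 := h T' h1 h3
    unfold commonEdges
    omega

/-- `f n = max 1 ⌊(n - 2) / 5⌋` for all `n ≥ 2`, and `f n / n` tends to `1 / 5`. -/
theorem result : (∀ n : ℕ, 2 ≤ n → f n = max 1 ((n - 2) / 5)) ∧
    Filter.Tendsto (fun n : ℕ => (f n : ℝ) / n) Filter.atTop (nhds (1 / 5)) := by
  refine ⟨exact_value, ?_⟩
  have hlow : ∀ n : ℕ, 2 ≤ n → (1 / 5 : ℝ) - 2 / n ≤ (f n : ℝ) / n := by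
    intro n hn
    have hn0 : (0 : ℝ) < n := by
      have : (0 : ℕ) < n := by omega
      exact_mod_cast this
    rw [exact_value n hn, le_div_iff₀ hn0, sub_mul, div_mul_cancel₀ _ hn0.ne']
    have h1 : n ≤ 5 * max 1 ((n - 2) / 5) + 10 := by omega
    have h2 : (n : ℝ) ≤ 5 * ((max 1 ((n - 2) / 5) : ℕ) : ℝ) + 10 := by exact_mod_cast h1
    linarith
  have hup : ∀ n : ℕ, 2 ≤ n → (f n : ℝ) / n ≤ 1 / 5 + 1 / n := by
    intro n hn
    have hn0 : (0 : ℝ) < n := by
      have : (0 : ℕ) < n := by omega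
      exact_mod_cast this
    rw [exact_value n hn, div_le_iff₀ hn0, add_mul, div_mul_cancel₀ _ hn0.ne']
    have h1 : 5 * max 1 ((n - 2) / 5) ≤ n + 5 := by omega
    have h2 : 5 * ((max 1 ((n - 2) / 5) : ℕ) : ℝ) ≤ (n : ℝ) + 5 := by exact_mod_cast h1
    linarith
  have t1 : Filter.Tendsto (fun n : ℕ => (1 / 5 : ℝ) - 2 / n) Filter.atTop (nhds (1 / 5)) := by
    have := (tendsto_const_div_atTop_nhds_zero_nat (2 : ℝ)).const_sub (1 / 5 : ℝ)
    simpa using this
  have t2 : Filter.Tendsto (fun n : ℕ => (1 / 5 : ℝ) + 1 / n) Filter.atTop (nhds (1 / 5)) := by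
    have := (tendsto_const_div_atTop_nhds_zero_nat (1 : ℝ)).const_add (1 / 5 : ℝ)
    simpa using this
  refine tendsto_of_tendsto_of_tendsto_of_le_of_le' t1 t2 ?_ ?_
  · filter_upwards [Filter.eventually_ge_atTop 2] with n hn using hlow n hn
  · filter_upwards [Filter.eventually_ge_atTop 2] with n hn using hup n hn

end Pool.Agent.Results.MP_1875a2_co.CommonEdges
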